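import Mathlib
import Pool.Agent.W329.AR.Basic

/-!
# An exact graded form of Schönhage's identity and its powers

For `⟨N,N,1⟩ ⊕ ⟨1,1,(N-1)²⟩` with `N = q + 1`.
-/

set_option autoImplicit false

open Finset

namespace Pool.Agent.Y640.Rect

open Pool.Agent.W329.AR (Rk MMT MR)

variable {K : Type*} [CommRing K]

/-- row/column index types of the two blocks -/
abbrev Pt (q : ℕ) : Bool → Type
  | false => Fin (q + 1)
  | true => Fin 1

/-- inner index types of the two blocks -/
abbrev St (q : ℕ) : Bool → Type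
  | false => Fin 1
  | true => Fin q × Fin q

variable {q : ℕ}

instance (b : Bool) : DecidableEq (Pt q b) := by cases b <;> (simp only [Pt]; infer_instance)
instance (b : Bool) : DecidableEq (St q b) := by cases b <;> (simp only [St]; infer_instance)
instance (b : Bool) : Fintype (Pt q b) := by cases b <;> (simp only [Pt]; infer_instance)
instance (b : Bool) : Fintype (St q b) := by cases b <;> (simp only [St]; infer_instance)

/-- index of the `x`-variables: `(q+1)² + 1` -/
abbrev XI (q : ℕ) := Σ b, Pt q b × Pt q b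
/-- index of the `y`-variables: `(q+1) + q²` -/
abbrev YI (q : ℕ) := Σ b, Pt q b × St q b
/-- index of the `z`-variables: `(q+1) + q²` -/
abbrev ZI (q : ℕ) := Σ b, St q b × Pt q b

/-- the direct sum `⟨q+1,q+1,1⟩ ⊕ ⟨1,1,q²⟩` -/
def DS (K : Type*) [CommRing K] : XI q → YI q → ZI q → K
  | ⟨false, i, j⟩, ⟨false, j', _⟩, ⟨false, _, i'⟩ => if i = i' ∧ j = j' then 1 else 0
  | ⟨true, _, _⟩, ⟨true, _, m⟩, ⟨true, m', _⟩ => if m = m' then 1 else 0
  | _, _, _ => 0

/-- coefficients of the variables of the inner product -/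
def VV (i j : Fin (q + 1)) (m : Fin q × Fin q) : ℤ :=
  (if i = m.1.castSucc then 1 else 0) *
    ((if j = m.2.castSucc then 1 else 0) - (if j = Fin.last q then 1 else 0))

/-- coefficients of the variables of the inner product -/
def UU (i j : Fin (q + 1)) (m : Fin q × Fin q) : ℤ :=
  ((if i = m.1.castSucc then 1 else 0) - (if i = Fin.last q then 1 else 0)) *
    (if j = m.2.castSucc then 1 else 0)

theorem VV_sum (i : Fin (q + 1)) (m : Fin q × Fin q) : ∑ j, VV i j m = 0 := by
  simp only [VV, ← Finset.mul_sum, Finset.sum_sub_distrib]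
  simp

theorem UU_sum (j : Fin (q + 1)) (m : Fin q × Fin q) : ∑ i, UU i j m = 0 := by
  simp only [UU, ← Finset.sum_mul, Finset.sum_sub_distrib]
  simp

theorem UV_sum (m m' : Fin q × Fin q) : ∑ i, ∑ j, VV i j m * UU i j m' =
    if m = m' then 1 else 0 := by
  have h : ∀ i j, VV i j m * UU i j m' =
      ((if i = m.1.castSucc then 1 else 0) * ((if i = m'.1.castSucc then 1 else 0) -
        (if i = Fin.last q then 1 else 0))) *
      (((if j = m.2.castSucc then 1 else 0) - (if j = Fin.last q then 1 else 0)) *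
        (if j = m'.2.castSucc then 1 else 0)) := by
    intro i j
    simp only [VV, UU]
    ring
  simp_rw [h]
  rw [← Finset.sum_mul_sum]
  have h1 : ∑ i : Fin (q + 1), ((if i = m.1.castSucc then (1 : ℤ) else 0) *
      ((if i = m'.1.castSucc then 1 else 0) - (if i = Fin.last q then 1 else 0))) =
      if m.1 = m'.1 then 1 else 0 := by
    simp [Fin.castSucc_ne_last]
  have h2 : ∑ j : Fin (q + 1), (((if j = m.2.castSucc then (1 : ℤ) else 0) -
      (if j = Fin.last q then 1 else 0)) * (if j = m'.2.castSucc then 1 else 0)) =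
      if m.2 = m'.2 then 1 else 0 := by
    simp only [mul_ite, mul_one, mul_zero, Finset.sum_ite_eq', Finset.mem_univ, if_true,
      Fin.castSucc_ne_last, if_false, sub_zero, Fin.castSucc_inj]
    simp [eq_comm]
  rw [h1, h2]
  by_cases e1 : m.1 = m'.1 <;> by_cases e2 : m.2 = m'.2 <;> simp [Prod.ext_iff, e1, e2]

/-- coefficients of the `x`-variables -/
def X0 (K : Type*) [CommRing K] : Option (Fin (q + 1) × Fin (q + 1)) → XI q → K
  | some (i, j), ⟨false, i', j'⟩ => if i = i' ∧ j = j' then 1 else 0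
  | some _, ⟨true, _, _⟩ => 1
  | none, ⟨false, _, _⟩ => 0
  | none, ⟨true, _, _⟩ => -1

/-- coefficients of the `y`-variables -/
def Y0 (K : Type*) [CommRing K] : Option (Fin (q + 1) × Fin (q + 1)) → YI q → K
  | some (_, j), ⟨false, j', _⟩ => if j = j' then 1 else 0
  | some (i, j), ⟨true, _, m⟩ => ((VV i j m : ℤ) : K)
  | none, ⟨false, _, _⟩ => 1
  | none, ⟨true, _, _⟩ => 0

/-- coefficients of the `z`-variables -/
def Z0 (K : Type*) [CommRing K] : Option (Fin (q + 1) × Fin (q + 1)) → ZI q → K
  | some (i, _), ⟨false, _, i'⟩ => if i = i' then 1 else 0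
  | some (i, j), ⟨true, m, _⟩ => ((UU i j m : ℤ) : K)
  | none, ⟨false, _, _⟩ => 1
  | none, ⟨true, _, _⟩ => 0

/-- the base tensor -/
def T0 (K : Type*) [CommRing K] (x : XI q) (y : YI q) (z : ZI q) : K :=
  ∑ l, X0 K l x * Y0 K l y * Z0 K l z

/-- weight (twice the number of `false` at `x`, plus the number of `true` at `y`, `z`) -/
def wt (b b' b'' : Bool) : ℕ :=
  (if b = true then 0 else 2) + (if b' = true then 1 else 0) + (if b'' = true then 1 else 0)

theorem T0_light {x : XI q} {y : YI q} {z : ZI q} (h : wt x.1 y.1 z.1 < 2) : T0 K x y z = 0 := by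
  rcases x with ⟨_ | _, i', j'⟩
  · exfalso
    simp only [wt] at h
    rw [if_neg (by simp)] at h
    omega
  · have hs : T0 K (⟨true, i', j'⟩ : XI q) y z =
        (∑ i : Fin (q + 1), ∑ j : Fin (q + 1), Y0 K (some (i, j)) y * Z0 K (some (i, j)) z) -
          Y0 K none y * Z0 K none z := by
      unfold T0
      rw [Fintype.sum_option, Fintype.sum_prod_type]
      simp only [X0, one_mul, neg_mul]
      exact (sub_eq_neg_add _ _).symm
    rw [hs]
    rcases y with ⟨_ | _, j1, m⟩ <;> rcases z with ⟨_ | _, m1, i1⟩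
    · simp only [Y0, Z0]
      rw [Fintype.sum_eq_single i1, Fintype.sum_eq_single j1]
      · simp
      · intro j hj
        simp [hj]
      · intro i hi
        simp [hi]
    · simp only [Y0, Z0]
      have : ∀ i : Fin (q + 1), ∑ j : Fin (q + 1), (if j = j1 then (1 : K) else 0) *
          (((UU i j m1 : ℤ) : K)) = ((UU i j1 m1 : ℤ) : K) := by
        intro i
        rw [Fintype.sum_eq_single j1]
        · simp
        · intro j hj
          simp [hj]
      rw [Finset.sum_congr rfl fun i _ => this i, ← Int.cast_sum, UU_sum]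
      simp
    · simp only [Y0, Z0]
      rw [Fintype.sum_eq_single i1]
      · simp only [if_true, mul_one]
        rw [← Int.cast_sum, VV_sum]
        simp
      · intro i hi
        simp [hi]
    · exfalso
      revert h
      simp [wt]

theorem T0_eq {x : XI q} {y : YI q} {z : ZI q} (h : wt x.1 y.1 z.1 = 2) :
    T0 K x y z = DS K x y z := by
  rcases x with ⟨_ | _, i', j'⟩
  · -- `x` in the first block
    rcases y with ⟨_ | _, j1, m⟩ <;> rcases z with ⟨_ | _, m1, i1⟩
    · have hs : T0 K (⟨false, i', j'⟩ : XI q) ⟨false, j1, m⟩ ⟨false, m1, i1⟩ =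
          Y0 K (some (i', j')) ⟨false, j1, m⟩ * Z0 K (some (i', j')) ⟨false, m1, i1⟩ := by
        unfold T0
        rw [Fintype.sum_option, Fintype.sum_eq_single (i', j')]
        · simp [X0]
        · rintro ⟨i, j⟩ hne
          have : ¬ (i = i' ∧ j = j') := fun h => hne (by rw [h.1, h.2])
          simp [X0, this]
      rw [hs]
      simp only [Y0, Z0, DS]
      by_cases h1 : i' = i1 <;> by_cases h2 : j' = j1 <;> simp [h1, h2]
    all_goals (exfalso; revert h; simp [wt])
  · rcases y with ⟨_ | _, j1, m⟩ <;> rcases z with ⟨_ | _, m1, i1⟩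
    · exfalso; revert h; simp [wt]
    · exfalso; revert h; simp [wt]
    · exfalso; revert h; simp [wt]
    · have hs : T0 K (⟨true, i', j'⟩ : XI q) ⟨true, j1, m⟩ ⟨true, m1, i1⟩ =
          (∑ i : Fin (q + 1), ∑ j : Fin (q + 1), ((VV i j m : ℤ) : K) * ((UU i j m1 : ℤ) : K)) := by
        unfold T0
        rw [Fintype.sum_option, Fintype.sum_prod_type]
        simp [X0, Y0, Z0]
      rw [hs]
      simp_rw [← Int.cast_mul, ← Int.cast_sum]
      rw [UV_sum]
      simp only [DS]
      by_cases h2 : m = m1 <;> simp [h2]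

theorem DS_diff {b b' b'' : Bool} (h : ¬ (b = b' ∧ b = b'')) (i j : Pt q b) (j' : Pt q b')
    (m : St q b') (m' : St q b'') (i' : Pt q b'') :
    DS K ⟨b, i, j⟩ ⟨b', j', m⟩ ⟨b'', m', i'⟩ = 0 := by
  cases b <;> cases b' <;> cases b'' <;> first | rfl | simp at h

theorem DS_same (b : Bool) (i i' j j' : Pt q b) (m m' : St q b) :
    DS K ⟨b, i, j⟩ ⟨b, j', m⟩ ⟨b, m', i'⟩ = if i = i' ∧ j = j' ∧ m = m' then 1 else 0 := by
  cases b
  · have : m = m' := Subsingleton.elim (α := Fin 1) _ _
    simp [DS, this]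
  · have h1 : i = i' := Subsingleton.elim (α := Fin 1) _ _
    have h2 : j = j' := Subsingleton.elim (α := Fin 1) _ _
    simp [DS, h1, h2]

/-- number of `true` -/
def cnt {k : ℕ} (F : Fin k → Bool) : ℕ := (Finset.univ.filter fun t => F t = true).card

theorem cnt_sum {k : ℕ} (F : Fin k → Bool) : cnt F = ∑ t, if F t = true then 1 else 0 := by
  unfold cnt
  rw [Finset.card_filter]

theorem wt_sum {k : ℕ} (F F' F'' : Fin k → Bool) (h : cnt F = cnt F') (h' : cnt F = cnt F'') :
    ∑ t, wt (F t) (F' t) (F'' t) = 2 * k := by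
  have h1 : (∑ t, (if F t = true then 0 else 2)) + 2 * cnt F = 2 * k := by
    rw [cnt_sum, Finset.mul_sum, ← Finset.sum_add_distrib]
    have : ∀ t, (if F t = true then 0 else 2) + 2 * (if F t = true then 1 else 0) = 2 := by
      intro t; split_ifs <;> rfl
    rw [Finset.sum_congr rfl fun t _ => this t]
    simp [mul_comm]
  unfold wt
  rw [Finset.sum_add_distrib, Finset.sum_add_distrib, ← cnt_sum, ← cnt_sum]
  omega

/-- The graded identity: on variables of equal numbers of second blocks, the power of the base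
tensor equals the power of the direct sum, with no error term. -/
theorem graded {k : ℕ} (x : Fin k → XI q) (y : Fin k → YI q) (z : Fin k → ZI q)
    (h : cnt (fun t => (x t).1) = cnt (fun t => (y t).1))
    (h' : cnt (fun t => (x t).1) = cnt (fun t => (z t).1)) :
    ∏ t, T0 K (x t) (y t) (z t) = ∏ t, DS K (x t) (y t) (z t) := by
  by_cases hall : ∀ t, wt (x t).1 (y t).1 (z t).1 = 2
  · exact Finset.prod_congr rfl fun t _ => T0_eq (hall t)
  · push Not at hall
    obtain ⟨t0, ht0⟩ := hall
    have hs := wt_sum _ _ _ h h'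
    have hlight : ∃ t, wt (x t).1 (y t).1 (z t).1 < 2 := by
      by_contra hc
      push Not at hc
      have : ∑ _t : Fin k, 2 < ∑ t, wt (x t).1 (y t).1 (z t).1 := by
        refine Finset.sum_lt_sum (fun t _ => hc t) ⟨t0, Finset.mem_univ _, ?_⟩
        have := hc t0
        omega
      rw [hs] at this
      simp [mul_comm] at this
    obtain ⟨t1, ht1⟩ := hlight
    rw [Finset.prod_eq_zero (Finset.mem_univ t1) (T0_light ht1), Finset.prod_eq_zero
      (Finset.mem_univ t1)]
    have hne : ¬ ((x t1).1 = (y t1).1 ∧ (x t1).1 = (z t1).1) := by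
      rintro ⟨e1, e2⟩
      rw [← e1, ← e2] at ht1
      revert ht1
      unfold wt
      cases (x t1).1 <;> simp
    have := DS_diff (K := K) hne (x t1).2.1 (x t1).2.2 (y t1).2.1 (y t1).2.2 (z t1).2.1 (z t1).2.2
    exact this

/-- the number of `none` in a word -/
def nn {k : ℕ} (l : Fin k → Option (Fin (q + 1) × Fin (q + 1))) : ℕ :=
  (Finset.univ.filter fun t => l t = none).card

theorem X0_prod_eq_zero {k : ℕ} (l : Fin k → Option (Fin (q + 1) × Fin (q + 1)))
    (x : Fin k → XI q) (h : cnt (fun t => (x t).1) < nn l) : ∏ t, X0 K (l t) (x t) = 0 := by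
  have : ∃ t, l t = none ∧ (x t).1 = false := by
    by_contra hc
    push Not at hc
    refine absurd (Finset.card_le_card (s := Finset.univ.filter fun t => l t = none)
      (t := Finset.univ.filter fun t => (x t).1 = true) ?_) (not_le.2 h)
    intro t ht
    rw [Finset.mem_filter] at *
    refine ⟨ht.1, ?_⟩
    have := hc t ht.2
    cases hx : (x t).1
    · exact absurd hx this
    · rfl
  obtain ⟨t, h1, h2⟩ := this
  refine Finset.prod_eq_zero (Finset.mem_univ t) ?_
  rw [h1]
  rcases hx : x t with ⟨b, i, j⟩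
  rw [hx] at h2
  simp only at h2
  subst h2
  rfl

theorem sum_words {k f : ℕ} (x : Fin k → XI q) (y : Fin k → YI q) (z : Fin k → ZI q)
    (hx : cnt (fun t => (x t).1) = f) (hy : cnt (fun t => (y t).1) = f)
    (hz : cnt (fun t => (z t).1) = f) :
    ∑ l : {l : Fin k → Option (Fin (q + 1) × Fin (q + 1)) // nn l ≤ f},
      (∏ t, X0 K (l.1 t) (x t)) * (∏ t, Y0 K (l.1 t) (y t)) * (∏ t, Z0 K (l.1 t) (z t)) =
      ∏ t, DS K (x t) (y t) (z t) := by
  classical
  rw [← graded x y z (hx.trans hy.symm) (hx.trans hz.symm)]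
  have h3 := Finset.prod_univ_sum (R := K) (ι := Fin k)
    (fun _ => (Finset.univ : Finset (Option (Fin (q + 1) × Fin (q + 1)))))
    (fun t l => X0 K l (x t) * Y0 K l (y t) * Z0 K l (z t))
  rw [Fintype.piFinset_univ] at h3
  unfold T0
  rw [h3]
  simp_rw [Finset.prod_mul_distrib]
  rw [← Finset.sum_subtype (Finset.univ.filter fun l : Fin k → Option (Fin (q + 1) × Fin (q + 1)) =>
    nn l ≤ f) (fun l => by simp)
    (fun l => (∏ t, X0 K (l t) (x t)) * (∏ t, Y0 K (l t) (y t)) *
      (∏ t, Z0 K (l t) (z t)))]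
  refine Finset.sum_subset (Finset.subset_univ _) ?_
  intro l _ hl
  rw [Finset.mem_filter] at hl
  have hl' : cnt (fun t => (x t).1) < nn l := by
    rw [hx]
    by_contra hc
    exact hl ⟨Finset.mem_univ _, not_lt.1 hc⟩
  rw [X0_prod_eq_zero l x hl', zero_mul, zero_mul]

end Pool.Agent.Y640.Rect
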