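import Mathlib
import Pool.Agent.Y640.Graded

/-!
# Rectangular matrix multiplication from the graded identity
-/

set_option autoImplicit false

open Finset

namespace Pool.Agent.Y640.Rect

open Pool.Agent.W329.AR (Rk MMT MR)

variable {K : Type*} [CommRing K]
variable {q : ℕ}

theorem DSN_same {N : ℕ} (F : Fin N → Bool) (i i' j j' : ∀ t, Pt q (F t))
    (m m' : ∀ t, St q (F t)) :
    ∏ t, DS K ⟨F t, i t, j t⟩ ⟨F t, j' t, m t⟩ ⟨F t, m' t, i' t⟩ =
      if i = i' ∧ j = j' ∧ m = m' then 1 else 0 := by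
  simp_rw [DS_same]
  rw [Finset.prod_ite_zero]
  simp only [Finset.mem_univ, forall_true_left, Finset.prod_const_one]
  congr 1
  simp only [funext_iff, eq_iff_iff]
  constructor
  · intro h
    exact ⟨fun t => (h t).1, fun t => (h t).2.1, fun t => (h t).2.2⟩
  · intro h t
    exact ⟨h.1 t, h.2.1 t, h.2.2 t⟩

theorem DSN_diff {N : ℕ} {F F' F'' : Fin N → Bool} (h : ¬ (F = F' ∧ F = F''))
    (i j : ∀ t, Pt q (F t)) (j' : ∀ t, Pt q (F' t)) (m : ∀ t, St q (F' t))
    (m' : ∀ t, St q (F'' t)) (i' : ∀ t, Pt q (F'' t)) :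
    ∏ t, DS K ⟨F t, i t, j t⟩ ⟨F' t, j' t, m t⟩ ⟨F'' t, m' t, i' t⟩ = 0 := by
  have : ∃ t, ¬ (F t = F' t ∧ F t = F'' t) := by
    by_contra hc
    push Not at hc
    exact h ⟨funext fun t => (hc t).1, funext fun t => (hc t).2⟩
  obtain ⟨t, ht⟩ := this
  exact Finset.prod_eq_zero (Finset.mem_univ t) (DS_diff ht _ _ _ _ _ _)

theorem card_Pt {N : ℕ} (F : Fin N → Bool) :
    Fintype.card (∀ t, Pt q (F t)) = (q + 1) ^ (N - cnt F) := by
  rw [Fintype.card_pi]
  have h : ∀ t, Fintype.card (Pt q (F t)) = if F t = true then 1 else q + 1 := by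
    intro t
    cases F t
    · simpa using Fintype.card_fin (q + 1)
    · simpa using Fintype.card_fin 1
  simp_rw [h]
  rw [Finset.prod_ite]
  simp only [Finset.prod_const_one, Finset.prod_const, one_mul]
  congr 1
  have := Finset.card_filter_add_card_filter_not (s := (Finset.univ : Finset (Fin N)))
    (fun t => F t = true)
  simp only [Finset.card_univ, Fintype.card_fin] at this
  unfold cnt
  omega

theorem card_St {N : ℕ} (F : Fin N → Bool) :
    Fintype.card (∀ t, St q (F t)) = (q * q) ^ cnt F := by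
  rw [Fintype.card_pi]
  have h : ∀ t, Fintype.card (St q (F t)) = if F t = true then q * q else 1 := by
    intro t
    cases F t
    · simpa using Fintype.card_fin 1
    · have : Fintype.card (Fin q × Fin q) = q * q := by simp
      simpa using this
  simp_rw [h]
  rw [Finset.prod_ite]
  simp only [Finset.prod_const_one, Finset.prod_const, mul_one]
  rfl

theorem card_cnt (N f : ℕ) : Fintype.card {F : Fin N → Bool // cnt F = f} = N.choose f := by
  rw [Fintype.card_subtype]
  have h : (Finset.univ.filter fun F : Fin N → Bool => cnt F = f).card =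
      (Finset.powersetCard f (Finset.univ : Finset (Fin N))).card := by
    refine Finset.card_bij (fun F _ => Finset.univ.filter fun t => F t = true) ?_ ?_ ?_
    · intro F hF
      rw [Finset.mem_powersetCard]
      exact ⟨Finset.subset_univ _, (Finset.mem_filter.1 hF).2⟩
    · intro F _ G _ hFG
      funext t
      have := Finset.ext_iff.1 hFG t
      simp only [Finset.mem_filter, Finset.mem_univ, true_and] at this
      cases hF : F t <;> cases hG : G t <;> simp_all
    · intro s hs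
      rw [Finset.mem_powersetCard] at hs
      refine ⟨fun t => decide (t ∈ s), ?_, ?_⟩
      · rw [Finset.mem_filter]
        refine ⟨Finset.mem_univ _, ?_⟩
        unfold cnt
        simpa using hs.2
      · ext t
        simp
  rw [h, Finset.card_powersetCard, Finset.card_univ, Fintype.card_fin]

/-- the index set of the products: words with at most `i` letters `none` -/
abbrev Words (q k i : ℕ) := {l : Fin k → Option (Fin (q + 1) × Fin (q + 1)) // nn l ≤ i}

theorem MR_of_choose {N f C1 C2 : ℕ} (hC : C1 * C2 ≤ N.choose f) :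
    MR K (C1 * (q + 1) ^ (N - f)) (C2 * (q + 1) ^ (N - f)) ((q * q) ^ f)
      (Fintype.card (Words q N f)) := by
  classical
  -- choice of the positions
  have hemb : Nonempty ((Fin C1 × Fin C2) ↪ {F : Fin N → Bool // cnt F = f}) := by
    refine Function.Embedding.nonempty_of_card_le ?_
    rw [card_cnt]
    simpa using hC
  obtain ⟨Φ⟩ := hemb
  have hP : ∀ F : {F : Fin N → Bool // cnt F = f},
      Nonempty (Fin ((q + 1) ^ (N - f)) ↪ ∀ t, Pt q (F.1 t)) := by
    intro F
    refine Function.Embedding.nonempty_of_card_le ?_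
    rw [card_Pt, F.2, Fintype.card_fin]
  have hS : ∀ F : {F : Fin N → Bool // cnt F = f},
      Nonempty (Fin ((q * q) ^ f) ↪ ∀ t, St q (F.1 t)) := by
    intro F
    refine Function.Embedding.nonempty_of_card_le ?_
    rw [card_St, F.2, Fintype.card_fin]
  let eP := fun F => (hP F).some
  let eS := fun F => (hS F).some
  have key : Rk (MMT K (Fin C1 × Fin ((q + 1) ^ (N - f))) (Fin C2 × Fin ((q + 1) ^ (N - f)))
      (Fin ((q * q) ^ f))) (Fintype.card (Words q N f)) := by
    refine Rk.of_fintype (κ := Words q N f)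
      (fun l x => ∏ t, X0 K (l.1 t) ⟨(Φ (x.1.1, x.2.1)).1 t, eP (Φ (x.1.1, x.2.1)) x.1.2 t,
        eP (Φ (x.1.1, x.2.1)) x.2.2 t⟩)
      (fun l y => ∑ I : Fin C1, ∏ t, Y0 K (l.1 t) ⟨(Φ (I, y.1.1)).1 t,
        eP (Φ (I, y.1.1)) y.1.2 t, eS (Φ (I, y.1.1)) y.2 t⟩)
      (fun l z => ∑ J : Fin C2, ∏ t, Z0 K (l.1 t) ⟨(Φ (z.2.1, J)).1 t,
        eS (Φ (z.2.1, J)) z.1 t, eP (Φ (z.2.1, J)) z.2.2 t⟩) ?_
    rintro ⟨⟨I, i⟩, ⟨J, j⟩⟩ ⟨⟨J', j'⟩, m⟩ ⟨m', ⟨I', i'⟩⟩
    simp only
    have h1 : ∀ l : Words q N f,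
        (∏ t, X0 K (l.1 t) (⟨(Φ (I, J)).1 t, eP (Φ (I, J)) i t, eP (Φ (I, J)) j t⟩ : XI q)) *
        (∑ I1 : Fin C1, ∏ t, Y0 K (l.1 t) (⟨(Φ (I1, J')).1 t, eP (Φ (I1, J')) j' t,
          eS (Φ (I1, J')) m t⟩ : YI q)) *
        (∑ J1 : Fin C2, ∏ t, Z0 K (l.1 t) (⟨(Φ (I', J1)).1 t, eS (Φ (I', J1)) m' t,
          eP (Φ (I', J1)) i' t⟩ : ZI q)) =
        ∑ I1 : Fin C1, ∑ J1 : Fin C2,
          (∏ t, X0 K (l.1 t) (⟨(Φ (I, J)).1 t, eP (Φ (I, J)) i t, eP (Φ (I, J)) j t⟩ : XI q)) *
          (∏ t, Y0 K (l.1 t) (⟨(Φ (I1, J')).1 t, eP (Φ (I1, J')) j' t,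
            eS (Φ (I1, J')) m t⟩ : YI q)) *
          (∏ t, Z0 K (l.1 t) (⟨(Φ (I', J1)).1 t, eS (Φ (I', J1)) m' t,
            eP (Φ (I', J1)) i' t⟩ : ZI q)) := by
      intro l
      rw [mul_assoc, Finset.sum_mul_sum, Finset.mul_sum]
      refine Finset.sum_congr rfl fun I1 _ => ?_
      rw [Finset.mul_sum]
      exact Finset.sum_congr rfl fun J1 _ => (mul_assoc _ _ _).symm
    rw [Finset.sum_congr rfl fun l _ => h1 l, Finset.sum_comm]
    have h2 : ∀ I1 : Fin C1, ∑ l : Words q N f, ∑ J1 : Fin C2,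
          (∏ t, X0 K (l.1 t) (⟨(Φ (I, J)).1 t, eP (Φ (I, J)) i t, eP (Φ (I, J)) j t⟩ : XI q)) *
          (∏ t, Y0 K (l.1 t) (⟨(Φ (I1, J')).1 t, eP (Φ (I1, J')) j' t,
            eS (Φ (I1, J')) m t⟩ : YI q)) *
          (∏ t, Z0 K (l.1 t) (⟨(Φ (I', J1)).1 t, eS (Φ (I', J1)) m' t,
            eP (Φ (I', J1)) i' t⟩ : ZI q)) =
        ∑ J1 : Fin C2, ∏ t, DS K
          ⟨(Φ (I, J)).1 t, eP (Φ (I, J)) i t, eP (Φ (I, J)) j t⟩
          ⟨(Φ (I1, J')).1 t, eP (Φ (I1, J')) j' t, eS (Φ (I1, J')) m t⟩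
          ⟨(Φ (I', J1)).1 t, eS (Φ (I', J1)) m' t, eP (Φ (I', J1)) i' t⟩ := by
      intro I1
      rw [Finset.sum_comm]
      refine Finset.sum_congr rfl fun J1 _ => ?_
      exact sum_words (K := K)
        (fun t => (⟨(Φ (I, J)).1 t, eP (Φ (I, J)) i t, eP (Φ (I, J)) j t⟩ : XI q))
        (fun t => (⟨(Φ (I1, J')).1 t, eP (Φ (I1, J')) j' t, eS (Φ (I1, J')) m t⟩ : YI q))
        (fun t => (⟨(Φ (I', J1)).1 t, eS (Φ (I', J1)) m' t, eP (Φ (I', J1)) i' t⟩ : ZI q))
        (Φ (I, J)).2 (Φ (I1, J')).2 (Φ (I', J1)).2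
    rw [Finset.sum_congr rfl fun I1 _ => h2 I1]
    by_cases hIJ : J' = J ∧ I' = I
    · obtain ⟨rfl, rfl⟩ := hIJ
      rw [Fintype.sum_eq_single I', Fintype.sum_eq_single J']
      · rw [DSN_same]
        simp only [MMT, Prod.mk.injEq, true_and, (eP (Φ (I', J'))).injective.eq_iff,
          (eS (Φ (I', J'))).injective.eq_iff]
      · intro J1 hJ1
        refine DSN_diff ?_ _ _ _ _ _ _
        rintro ⟨_, h⟩
        have := Φ.injective (Subtype.ext h)
        exact hJ1 (Prod.mk.inj this).2.symm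
      · intro I1 hI1
        refine Finset.sum_eq_zero fun J1 _ => DSN_diff ?_ _ _ _ _ _ _
        rintro ⟨h, _⟩
        have := Φ.injective (Subtype.ext h)
        exact hI1 (Prod.mk.inj this).1.symm
    · have hz : ∀ I1 : Fin C1, ∀ J1 : Fin C2, ∏ t, DS K
          ⟨(Φ (I, J)).1 t, eP (Φ (I, J)) i t, eP (Φ (I, J)) j t⟩
          ⟨(Φ (I1, J')).1 t, eP (Φ (I1, J')) j' t, eS (Φ (I1, J')) m t⟩
          ⟨(Φ (I', J1)).1 t, eS (Φ (I', J1)) m' t, eP (Φ (I', J1)) i' t⟩ = 0 := by
        intro I1 J1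
        refine DSN_diff ?_ _ _ _ _ _ _
        rintro ⟨h, h'⟩
        have e1 := Φ.injective (Subtype.ext h)
        have e2 := Φ.injective (Subtype.ext h')
        exact hIJ ⟨(Prod.mk.inj e1).2.symm, (Prod.mk.inj e2).1.symm⟩
      simp_rw [hz]
      simp only [Finset.sum_const_zero, MMT, Prod.mk.injEq]
      rw [if_neg]
      rintro ⟨⟨h, _⟩, ⟨h', _⟩, _⟩
      exact hIJ ⟨h'.symm, h.symm⟩
  exact MR.of_types key (by simp) (by simp) (by simp)

/-! ### counting words -/

theorem card_nn (q k j : ℕ) :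
    Fintype.card {l : Fin k → Option (Fin (q + 1) × Fin (q + 1)) // nn l = j} ≤
      k.choose j * ((q + 1) ^ 2) ^ (k - j) := by
  classical
  -- a word is determined by its positions of `none` and its letters elsewhere
  have h0 : Fintype.card (Σ s : {s : Finset (Fin k) // s.card = j},
      ({t : Fin k // t ∉ s.1} → Fin (q + 1) × Fin (q + 1))) =
      k.choose j * ((q + 1) ^ 2) ^ (k - j) := by
    rw [Fintype.card_sigma]
    have : ∀ s : {s : Finset (Fin k) // s.card = j},
        Fintype.card ({t : Fin k // t ∉ s.1} → Fin (q + 1) × Fin (q + 1)) =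
        ((q + 1) ^ 2) ^ (k - j) := by
      intro s
      rw [Fintype.card_fun, Fintype.card_prod, Fintype.card_fin]
      congr 1
      · ring
      · rw [Fintype.card_subtype_compl]
        simp [s.2]
    rw [Finset.sum_congr rfl fun s _ => this s, Finset.sum_const, Finset.card_univ,
      Fintype.card_finset_len, Fintype.card_fin, smul_eq_mul]
  rw [← h0]
  let g : (Σ s : {s : Finset (Fin k) // s.card = j},
      ({t : Fin k // t ∉ s.1} → Fin (q + 1) × Fin (q + 1))) →
      {l : Fin k → Option (Fin (q + 1) × Fin (q + 1)) // nn l = j} := fun p =>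
    ⟨fun t => if h : t ∈ p.1.1 then none else some (p.2 ⟨t, h⟩), by
      unfold nn
      have : (Finset.univ.filter fun t : Fin k =>
          (if h : t ∈ p.1.1 then none else some (p.2 ⟨t, h⟩)) = none) = p.1.1 := by
        ext t
        by_cases h : t ∈ p.1.1 <;> simp [h]
      rw [this]
      exact p.1.2⟩
  refine Fintype.card_le_of_surjective g ?_
  rintro ⟨l, hl⟩
  refine ⟨⟨⟨Finset.univ.filter fun t => l t = none, hl⟩,
    fun t => (l t.1).get (by
      have := t.2
      rw [Finset.mem_filter] at this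
      push Not at this
      exact Option.isSome_iff_ne_none.2 (this (Finset.mem_univ _)))⟩, ?_⟩
  refine Subtype.ext (funext fun t => ?_)
  simp only [g, Finset.mem_filter, Finset.mem_univ, true_and]
  split_ifs with h
  · exact h.symm
  · simp

theorem card_words (q k i : ℕ) : Fintype.card (Words q k i) ≤
    ∑ j ∈ Finset.range (i + 1), k.choose j * ((q + 1) ^ 2) ^ (k - j) := by
  classical
  rw [Fintype.card_subtype]
  have h : (Finset.univ.filter fun l : Fin k → Option (Fin (q + 1) × Fin (q + 1)) => nn l ≤ i) =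
      (Finset.range (i + 1)).biUnion fun j =>
        Finset.univ.filter fun l : Fin k → Option (Fin (q + 1) × Fin (q + 1)) => nn l = j := by
    ext l
    simp [Nat.lt_succ_iff]
  rw [h]
  refine Finset.card_biUnion_le.trans (Finset.sum_le_sum fun j _ => ?_)
  rw [← Fintype.card_subtype]
  exact card_nn q k j

end Pool.Agent.Y640.Rect
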