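import Mathlib
import Pool.Agent.Y640.Blocks

/-!
# Choice of parameters
-/

set_option autoImplicit false

open Finset

namespace Pool.Agent.Y640.Rect

open Pool.Agent.W329.AR (Rk MMT MR)

theorem choose_step {c k i j : ℕ} (hk : k = (c + 1) * i) (hj : j + 1 ≤ i) :
    c * k.choose j ≤ k.choose (j + 1) := by
  have h := Nat.choose_succ_right_eq k j
  have h1 : c * (j + 1) ≤ k - j := by
    have : c * (j + 1) ≤ c * i := Nat.mul_le_mul le_rfl hj
    have : k = c * i + i := by rw [hk]; ring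
    omega
  have h2 : (c * k.choose j) * (j + 1) ≤ k.choose (j + 1) * (j + 1) := by
    rw [h]
    calc c * k.choose j * (j + 1) = k.choose j * (c * (j + 1)) := by ring
      _ ≤ _ := Nat.mul_le_mul le_rfl h1
  exact Nat.le_of_mul_le_mul_right h2 (Nat.succ_pos _)

theorem pow_le_choose {c k i : ℕ} (hk : k = (c + 1) * i) : ∀ j ≤ i, c ^ j ≤ k.choose j := by
  intro j
  induction j with
  | zero => intro _; simp
  | succ j ih =>
    intro hj
    calc c ^ (j + 1) = c * c ^ j := by ring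
      _ ≤ c * k.choose j := Nat.mul_le_mul le_rfl (ih (by omega))
      _ ≤ _ := choose_step hk hj

/-- the geometric bound for the number of words -/
theorem geom {d k i : ℕ} (hk : k = (d + 10) * i) : ∀ j ≤ i,
    d * ∑ l ∈ Finset.range (j + 1), k.choose l * 9 ^ (k - l) ≤
      (d + 9) * (k.choose j * 9 ^ (k - j)) := by
  intro j
  induction j with
  | zero =>
    intro _
    simp only [zero_add, Finset.sum_range_one]
    exact Nat.mul_le_mul (by omega) le_rfl
  | succ j ih =>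
    intro hj
    rw [Finset.sum_range_succ, mul_add]
    have h1 := ih (by omega)
    have h2 : (d + 9) * k.choose j ≤ k.choose (j + 1) := choose_step (c := d + 9) hk hj
    have hkj : j + 1 ≤ k := by
      have : i ≤ k := by rw [hk]; nlinarith
      omega
    have h3 : 9 ^ (k - j) = 9 * 9 ^ (k - (j + 1)) := by
      rw [← pow_succ']
      congr 1
      omega
    calc d * ∑ l ∈ Finset.range (j + 1), k.choose l * 9 ^ (k - l) +
          d * (k.choose (j + 1) * 9 ^ (k - (j + 1)))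
        ≤ (d + 9) * (k.choose j * 9 ^ (k - j)) +
          d * (k.choose (j + 1) * 9 ^ (k - (j + 1))) := Nat.add_le_add_right h1 _
      _ = ((d + 9) * k.choose j) * (9 * 9 ^ (k - (j + 1))) +
          d * (k.choose (j + 1) * 9 ^ (k - (j + 1))) := by rw [h3]; ring
      _ ≤ (k.choose (j + 1)) * (9 * 9 ^ (k - (j + 1))) +
          d * (k.choose (j + 1) * 9 ^ (k - (j + 1))) :=
          Nat.add_le_add_right (Nat.mul_le_mul h2 le_rfl) _
      _ = _ := by ring

theorem choose_upper {c k i : ℕ} (hk : k = (c + 1) * i) :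
    k.choose i * c ^ (c * i) ≤ (c + 1) ^ k := by
  have h := add_pow (1 : ℕ) c k
  have hki : k - i = c * i := by rw [hk, Nat.add_mul, one_mul, Nat.add_sub_cancel]
  have hi : i ∈ Finset.range (k + 1) := by
    rw [Finset.mem_range, hk]
    nlinarith
  simp only [Nat.cast_id] at h
  have h1 := Finset.single_le_sum (f := fun m => 1 ^ m * c ^ (k - m) * k.choose m)
    (fun _ _ => Nat.zero_le _) hi
  rw [← h] at h1
  simp only [one_pow, one_mul, hki] at h1
  calc k.choose i * c ^ (c * i) = c ^ (c * i) * k.choose i := mul_comm _ _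
    _ ≤ _ := h1
    _ = _ := by rw [add_comm]

/-- the comparison of growth rates -/
theorem growth (d : ℕ) (hd : 2 ≤ d) :
    (d + 10) ^ (d + 10) * 9 ^ (d + 9) < 16 ^ (d + 8) * (d + 9) ^ (d + 9) := by
  induction d, hd using Nat.le_induction with
  | base => norm_num
  | succ d hd ih =>
    have h1 : (d + 11) * (d + 9) ≤ (d + 10) ^ 2 := by nlinarith
    have h2 : ((d + 11) * (d + 9)) ^ (d + 9) ≤ ((d + 10) ^ 2) ^ (d + 9) := Nat.pow_le_pow_left h1 _
    -- multiply the goal by `(d+9)^(d+9) * (d+10)^2`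
    have hpos : 0 < (d + 9) ^ (d + 9) * (d + 10) ^ 2 := by positivity
    refine Nat.lt_of_mul_lt_mul_left (a := (d + 9) ^ (d + 9) * (d + 10) ^ (d + 10)) ?_
    have e1 : (d + 9) ^ (d + 9) * (d + 10) ^ (d + 10) *
        ((d + 1 + 10) ^ (d + 1 + 10) * 9 ^ (d + 1 + 9)) =
        ((d + 11) * (d + 9)) ^ (d + 9) * ((d + 11) ^ 2 * 9) *
          ((d + 10) ^ (d + 10) * 9 ^ (d + 9)) := by
      rw [show d + 1 + 10 = d + 11 by ring, show d + 1 + 9 = d + 9 + 1 by ring,
        show (d + 11) ^ (d + 11) = (d + 11) ^ (d + 9) * (d + 11) ^ 2 by rw [← pow_add], mul_pow]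
      ring
    have e2 : (d + 9) ^ (d + 9) * (d + 10) ^ (d + 10) *
        (16 ^ (d + 1 + 8) * (d + 1 + 9) ^ (d + 1 + 9)) =
        ((d + 10) ^ 2) ^ (d + 9) * (16 * (d + 10) ^ 2) *
          (16 ^ (d + 8) * (d + 9) ^ (d + 9)) := by
      rw [show d + 1 + 9 = d + 10 by ring, show d + 1 + 8 = d + 8 + 1 by ring, ← pow_mul]
      rw [show (d + 10) ^ (2 * (d + 9)) * (16 * (d + 10) ^ 2) *
        (16 ^ (d + 8) * (d + 9) ^ (d + 9)) = (d + 10) ^ (2 * (d + 9) + 2) * (16 * 16 ^ (d + 8)) *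
        (d + 9) ^ (d + 9) by rw [pow_add]; ring]
      rw [show 2 * (d + 9) + 2 = (d + 10) + (d + 10) by ring, pow_add (d + 10)]
      ring
    rw [e1, e2]
    have h3 : (d + 11) ^ 2 * 9 ≤ 16 * (d + 10) ^ 2 := by nlinarith
    refine Nat.mul_lt_mul_of_le_of_lt (Nat.mul_le_mul h2 h3) ih ?_
    positivity

/-- The main numerical statement. -/
theorem params (d : ℕ) (hd : 2 ≤ d) : ∃ n₀ : ℕ, ∀ n ≥ n₀, ∃ i t : ℕ,
    n < (4 ^ (d + 8)) ^ i ∧ t * t ≤ ((d + 10) * i).choose i ∧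
    8 * (d + 9) ≤ t ∧ ((d + 10) * i).choose i ≤ t * t + 2 * t ∧
    8 * (d + 9) * (t * 3 ^ ((d + 9) * i)) ≤ n := by
  set G : ℝ := ((d + 10 : ℕ) : ℝ) ^ (d + 10) * 9 ^ (d + 9) / ((d + 9 : ℕ) : ℝ) ^ (d + 9) with hG
  have hGpos : 0 < G := by positivity
  have hGlt : G < 16 ^ (d + 8) := by
    rw [hG, div_lt_iff₀ (by positivity)]
    exact_mod_cast growth d hd
  have hratio : 1 < 16 ^ (d + 8) / G := by rwa [one_lt_div hGpos]
  set M : ℕ := 8 * (d + 9) with hM
  obtain ⟨i₁, hi₁⟩ := pow_unbounded_of_one_lt ((M : ℝ) ^ 2 * 16 ^ (d + 8)) hratio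
  refine ⟨(4 ^ (d + 8)) ^ (i₁ + M ^ 2 + 1), fun n hn => ?_⟩
  have hb : 1 < 4 ^ (d + 8) := Nat.one_lt_pow (by omega) (by norm_num)
  have hn0 : n ≠ 0 := by
    have : 0 < (4 ^ (d + 8)) ^ (i₁ + M ^ 2 + 1) := by positivity
    omega
  set i := Nat.log (4 ^ (d + 8)) n + 1 with hi
  have hlog : i₁ + M ^ 2 + 1 ≤ Nat.log (4 ^ (d + 8)) n := by
    exact Nat.le_log_of_pow_le hb hn
  set k := (d + 10) * i with hk
  have hk' : k = (d + 9 + 1) * i := hk
  set t := Nat.sqrt (k.choose i) with ht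
  have ht1 : t * t ≤ k.choose i := Nat.sqrt_le _
  have ht2 : k.choose i < (t + 1) * (t + 1) := Nat.lt_succ_sqrt _
  refine ⟨i, t, ?_, ht1, ?_, ?_, ?_⟩
  · exact Nat.lt_pow_succ_log_self hb n
  · rw [ht, Nat.le_sqrt]
    have h1 := pow_le_choose hk' i le_rfl
    have h2 : i < (d + 9) ^ i := Nat.lt_pow_self (by omega)
    have h3 : M * M ≤ i := by rw [← sq]; omega
    exact h3.trans (h2.le.trans h1)
  · change k.choose i ≤ t * t + 2 * t
    have : (t + 1) * (t + 1) = t * t + 2 * t + 1 := by ring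
    rw [this] at ht2
    exact Nat.le_of_lt_succ ht2
  · -- real estimate
    have h1 : (4 ^ (d + 8)) ^ (i - 1) ≤ n := by
      have : i - 1 = Nat.log (4 ^ (d + 8)) n := by omega
      rw [this]
      exact Nat.pow_log_le_self _ hn0
    refine le_trans ?_ h1
    have h2 := choose_upper hk'
    have h3 : ((t * 3 ^ ((d + 9) * i) : ℕ) : ℝ) ^ 2 ≤ G ^ i := by
      have h4 : ((t * t : ℕ) : ℝ) ≤ ((k.choose i : ℕ) : ℝ) := by exact_mod_cast ht1
      have h5 : ((k.choose i : ℕ) : ℝ) * ((d + 9 : ℕ) : ℝ) ^ ((d + 9) * i) ≤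
          ((d + 10 : ℕ) : ℝ) ^ k := by exact_mod_cast h2
      have h6 : ((k.choose i : ℕ) : ℝ) ≤ ((d + 10 : ℕ) : ℝ) ^ k / ((d + 9 : ℕ) : ℝ) ^ ((d + 9) * i) := by
        rw [le_div_iff₀ (by positivity)]
        exact h5
      have h7 : G ^ i = ((d + 10 : ℕ) : ℝ) ^ k / ((d + 9 : ℕ) : ℝ) ^ ((d + 9) * i) *
          (9 : ℝ) ^ ((d + 9) * i) := by
        rw [hG, div_pow, mul_pow, ← pow_mul, ← pow_mul, ← pow_mul]
        ring
      rw [h7]
      push_cast at h4 ⊢
      calc ((t : ℝ) * 3 ^ ((d + 9) * i)) ^ 2 = (t * t) * (9 : ℝ) ^ ((d + 9) * i) := by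
            rw [mul_pow, ← pow_mul, mul_comm ((d + 9) * i) 2, pow_mul (3 : ℝ) 2]
            norm_num
            ring
        _ ≤ _ := by
            refine mul_le_mul_of_nonneg_right ?_ (by positivity)
            refine h4.trans ?_
            have := h6
            push_cast at this
            exact this
    have h8 : ((M : ℝ) * ((t * 3 ^ ((d + 9) * i) : ℕ) : ℝ)) ^ 2 ≤
        (((4 ^ (d + 8)) ^ (i - 1) : ℕ) : ℝ) ^ 2 := by
      rw [mul_pow]
      have h9 : (M : ℝ) ^ 2 * 16 ^ (d + 8) ≤ (16 ^ (d + 8) / G) ^ i := by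
        refine hi₁.le.trans (pow_le_pow_right₀ hratio.le (by omega))
      have h10 : (M : ℝ) ^ 2 * G ^ i ≤ ((16 : ℝ) ^ (d + 8)) ^ (i - 1) := by
        have h11 : (16 : ℝ) ^ (d + 8) * ((M : ℝ) ^ 2 * G ^ i) ≤
            16 ^ (d + 8) * ((16 : ℝ) ^ (d + 8)) ^ (i - 1) := by
          calc (16 : ℝ) ^ (d + 8) * ((M : ℝ) ^ 2 * G ^ i) =
              ((M : ℝ) ^ 2 * 16 ^ (d + 8)) * G ^ i := by ring
            _ ≤ (16 ^ (d + 8) / G) ^ i * G ^ i :=
                mul_le_mul_of_nonneg_right h9 (by positivity)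
            _ = ((16 : ℝ) ^ (d + 8)) ^ i := by
                rw [← mul_pow, div_mul_cancel₀ _ hGpos.ne']
            _ = _ := by
                rw [← pow_succ']
                congr 1
        exact le_of_mul_le_mul_left h11 (by positivity)
      have h12 : (((4 ^ (d + 8)) ^ (i - 1) : ℕ) : ℝ) ^ 2 = ((16 : ℝ) ^ (d + 8)) ^ (i - 1) := by
        have h16 : ∀ e j : ℕ, (((4 : ℝ) ^ e) ^ j) ^ 2 = ((16 : ℝ) ^ e) ^ j := by
          intro e j
          rw [show (16 : ℝ) = 4 ^ 2 by norm_num, ← pow_mul, ← pow_mul, ← pow_mul, ← pow_mul]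
          congr 1
          ring
        push_cast
        exact h16 _ _
      rw [h12]
      refine le_trans ?_ h10
      exact mul_le_mul_of_nonneg_left h3 (by positivity)
    have hX : 0 ≤ (M : ℝ) * ((t * 3 ^ ((d + 9) * i) : ℕ) : ℝ) :=
      mul_nonneg (Nat.cast_nonneg _) (Nat.cast_nonneg _)
    have hY : (0 : ℝ) ≤ (((4 ^ (d + 8)) ^ (i - 1) : ℕ) : ℝ) := Nat.cast_nonneg _
    have h13 := (pow_le_pow_iff_left₀ hX hY two_ne_zero).1 h8
    rw [← Nat.cast_mul] at h13
    exact Nat.cast_le.1 h13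

end Pool.Agent.Y640.Rect
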