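import Mathlib
import Pool.Agent.Y640.Numbers

/-!
# Almost optimal rectangular matrix multiplication
-/

set_option autoImplicit false

open Finset

namespace Pool.Agent.Y640.Rect

open Pool.Agent.W329.AR (Rk MMT MR)

theorem main_MR.{u} (d : ℕ) (hd : 2 ≤ d) : ∃ n₀ : ℕ, ∀ n ≥ n₀, ∀ m : ℕ, m ^ (d + 8) ≤ n →
    ∃ r : ℕ, d * r ≤ (d + 10) * n ^ 2 ∧ ∀ (K : Type u) [CommRing K], MR K n n m r := by
  obtain ⟨n₀, h₀⟩ := params d hd
  refine ⟨n₀, fun n hn m hm => ?_⟩
  obtain ⟨i, t, h1, h2, h3, h4, h5⟩ := h₀ n hn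
  set k := (d + 10) * i with hk
  have hki : k - i = (d + 9) * i := by
    have : k = (d + 9) * i + i := by rw [hk]; ring
    omega
  have htpos : 0 < t := by omega
  set n₁ := t * 3 ^ ((d + 9) * i) with hn₁
  have hn₁pos : 0 < n₁ := by positivity
  have hmi : m ≤ 4 ^ i := by
    by_contra hc
    push Not at hc
    have : (4 ^ i) ^ (d + 8) ≤ m ^ (d + 8) := Nat.pow_le_pow_left hc.le _
    have h6 : (4 ^ i) ^ (d + 8) = (4 ^ (d + 8)) ^ i := by
      rw [← pow_mul, ← pow_mul, mul_comm]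
    omega
  set L := Fintype.card (Words 2 k i) with hL
  have hLbound : d * L ≤ (d + 9) * (k.choose i * 9 ^ ((d + 9) * i)) := by
    have e1 := card_words 2 k i
    have e2 := geom (d := d) hk i le_rfl
    rw [hki] at e2
    refine le_trans (Nat.mul_le_mul le_rfl ?_) e2
    simpa using e1
  -- the number of blocks
  set a := n / n₁ + 1 with ha
  have han : n ≤ a * n₁ := by
    have := Nat.div_add_mod n n₁
    have h6 := Nat.mod_lt n hn₁pos
    have : a * n₁ = n₁ * (n / n₁) + n₁ := by rw [ha]; ring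
    omega
  have han' : a * n₁ ≤ n + n₁ := by
    have h6 := Nat.div_mul_le_self n n₁
    have : a * n₁ = n / n₁ * n₁ + n₁ := by rw [ha]; ring
    omega
  refine ⟨a * a * 1 * L, ?_, ?_⟩
  · -- the estimate, in the reals
    have hnpos : 0 < n := by
      have : 0 < 8 * (d + 9) * n₁ := by positivity
      omega
    have key : ((d * (a * a * 1 * L) : ℕ) : ℝ) ≤ (((d + 10) * n ^ 2 : ℕ) : ℝ) := by
      set η : ℝ := 1 / (8 * ((d : ℝ) + 9)) with hη
      have hηpos : 0 < η := by positivity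
      have hη1 : η ≤ 1 / 2 := by
        rw [hη, div_le_div_iff₀ (by positivity) (by norm_num)]
        nlinarith [(Nat.cast_nonneg d : (0 : ℝ) ≤ d)]
      have f1 : (a : ℝ) * n₁ ≤ n * (1 + η) := by
        have g1 : (a : ℝ) * n₁ ≤ n + n₁ := by exact_mod_cast han'
        have g2 : (8 * ((d : ℝ) + 9)) * n₁ ≤ n := by exact_mod_cast h5
        have g3 : (n₁ : ℝ) ≤ n * η := by
          rw [hη, mul_one_div, le_div_iff₀ (by positivity)]
          linarith
        nlinarith
      have f2 : ((k.choose i : ℕ) : ℝ) ≤ (t : ℝ) ^ 2 * (1 + 2 * η) := by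
        have g1 : ((k.choose i : ℕ) : ℝ) ≤ t * t + 2 * t := by exact_mod_cast h4
        have g2 : (8 * ((d : ℝ) + 9)) ≤ t := by exact_mod_cast h3
        have g3 : 1 ≤ t * η := by
          rw [hη, mul_one_div, le_div_iff₀ (by positivity)]
          linarith
        have g4 : (t : ℝ) ≤ t ^ 2 * η := by
          have : (t : ℝ) * 1 ≤ t * (t * η) := mul_le_mul_of_nonneg_left g3 (by positivity)
          nlinarith
        nlinarith
      have f3 : ((d : ℝ) * L) ≤ (d + 9) * (((k.choose i : ℕ) : ℝ) * 9 ^ ((d + 9) * i)) := by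
        exact_mod_cast hLbound
      have f4 : (n₁ : ℝ) ^ 2 = (t : ℝ) ^ 2 * 9 ^ ((d + 9) * i) := by
        rw [hn₁]
        push_cast
        rw [mul_pow, ← pow_mul, mul_comm ((d + 9) * i) 2, pow_mul (3 : ℝ) 2]
        norm_num
      push_cast
      calc (d : ℝ) * (a * a * 1 * L) = (a : ℝ) ^ 2 * (d * L) := by ring
        _ ≤ (a : ℝ) ^ 2 * ((d + 9) * (((k.choose i : ℕ) : ℝ) * 9 ^ ((d + 9) * i))) :=
            mul_le_mul_of_nonneg_left f3 (by positivity)
        _ ≤ (a : ℝ) ^ 2 * ((d + 9) * (((t : ℝ) ^ 2 * (1 + 2 * η)) * 9 ^ ((d + 9) * i))) := by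
            gcongr
        _ = (d + 9) * (1 + 2 * η) * ((a : ℝ) * n₁) ^ 2 := by
            rw [mul_pow, f4]; ring
        _ ≤ (d + 9) * (1 + 2 * η) * (n * (1 + η)) ^ 2 := by gcongr
        _ = (d + 9) * ((1 + 2 * η) * (1 + η) ^ 2) * (n : ℝ) ^ 2 := by ring
        _ ≤ (d + 9) * (1 + 8 * η) * (n : ℝ) ^ 2 := by
            gcongr
            nlinarith [mul_pos hηpos hηpos]
        _ = ((d : ℝ) + 10) * (n : ℝ) ^ 2 := by
            have : ((d : ℝ) + 9) * (1 + 8 * η) = d + 10 := by
              rw [hη]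
              field_simp
              ring
            rw [this]
    exact_mod_cast key
  · intro K _
    have hMR := MR_of_choose (K := K) (q := 2) h2
    rw [hki] at hMR
    exact hMR.block (a := a) (b := a) (c := 1) han han (by simpa using hmi)

/-- `n × m` by `m × n` matrices over `K` can be multiplied with `r` products, each of a linear
form in the entries of the first matrix and a linear form in the entries of the second. -/
def MulWith (K : Type*) [CommRing K] (n m r : ℕ) : Prop :=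
  ∃ (f : Fin r → Matrix (Fin n) (Fin m) K →ₗ[K] K) (g : Fin r → Matrix (Fin m) (Fin n) K →ₗ[K] K)
    (W : Fin r → Matrix (Fin n) (Fin n) K),
    ∀ (A : Matrix (Fin n) (Fin m) K) (B : Matrix (Fin m) (Fin n) K),
      A * B = ∑ l, (f l A * g l B) • W l

theorem MulWith.of_MR {K : Type*} [CommRing K] {n m r : ℕ} (h : MR K n n m r) :
    MulWith K n m r := by
  obtain ⟨u, v, w, h⟩ := h
  refine ⟨fun l => ∑ y : Fin n × Fin m, v l y • Matrix.entryLinearMap K K y.1 y.2,
    fun l => ∑ z : Fin m × Fin n, w l z • Matrix.entryLinearMap K K z.1 z.2,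
    fun l => Matrix.of fun i j => u l (j, i), fun A B => ?_⟩
  ext i j
  rw [Matrix.mul_apply, Matrix.sum_apply]
  have h1 : ∀ l, ((∑ y : Fin n × Fin m, v l y • Matrix.entryLinearMap K K y.1 y.2) A *
      (∑ z : Fin m × Fin n, w l z • Matrix.entryLinearMap K K z.1 z.2) B) * u l (j, i) =
      ∑ y : Fin n × Fin m, ∑ z : Fin m × Fin n, A y.1 y.2 * B z.1 z.2 *
        (u l (j, i) * v l y * w l z) := by
    intro l
    rw [LinearMap.sum_apply, LinearMap.sum_apply, Finset.sum_mul_sum, Finset.sum_mul]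
    refine Finset.sum_congr rfl fun y _ => ?_
    rw [Finset.sum_mul]
    refine Finset.sum_congr rfl fun z _ => ?_
    simp only [LinearMap.smul_apply, Matrix.entryLinearMap_apply, smul_eq_mul]
    ring
  simp only [Matrix.smul_apply, smul_eq_mul, Matrix.of_apply]
  rw [Finset.sum_congr rfl fun l _ => h1 l, Finset.sum_comm]
  have h2 : ∀ y : Fin n × Fin m, ∑ l, ∑ z : Fin m × Fin n, A y.1 y.2 * B z.1 z.2 *
        (u l (j, i) * v l y * w l z) =
      ∑ z : Fin m × Fin n, A y.1 y.2 * B z.1 z.2 * (if j = z.2 ∧ i = y.1 ∧ y.2 = z.1 then 1 else 0) := by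
    intro y
    rw [Finset.sum_comm]
    refine Finset.sum_congr rfl fun z _ => ?_
    rw [← Finset.mul_sum, ← h]
    rfl
  rw [Finset.sum_congr rfl fun y _ => h2 y]
  simp only [Fintype.sum_prod_type]
  rw [Finset.sum_eq_single i]
  · refine Finset.sum_congr rfl fun s _ => ?_
    rw [Finset.sum_eq_single s]
    · rw [Finset.sum_eq_single j]
      · simp
      · intro j' _ hj'
        simp [hj'.symm]
      · simp
    · intro s' _ hs'
      simp [hs'.symm]
    · simp
  · intro i' _ hi'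
    simp [hi'.symm]
  · simp

theorem main.{u} (d : ℕ) (hd : 2 ≤ d) : ∃ n₀ : ℕ, ∀ n ≥ n₀, ∀ m : ℕ, m ^ (d + 8) ≤ n →
    ∃ r : ℕ, d * r ≤ (d + 10) * n ^ 2 ∧ ∀ (K : Type u) [CommRing K], MulWith K n m r := by
  obtain ⟨n₀, h⟩ := main_MR.{u} d hd
  refine ⟨n₀, fun n hn m hm => ?_⟩
  obtain ⟨r, h1, h2⟩ := h n hn m hm
  exact ⟨r, h1, fun K _ => MulWith.of_MR (h2 K)⟩

end Pool.Agent.Y640.Rect

namespace Pool.Agent.Y640.Rect

/-- `n²` products are always necessary. -/
theorem MulWith.lower {K : Type*} [CommRing K] [Nontrivial K] {n m r : ℕ} (hm : 1 ≤ m)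
    (h : MulWith K n m r) : n ^ 2 ≤ r := by
  obtain ⟨f, g, W, h⟩ := h
  have hspan : Submodule.span K (Set.range W) = ⊤ := by
    rw [eq_top_iff, ← (Matrix.stdBasis K (Fin n) (Fin n)).span_eq, Submodule.span_le]
    rintro _ ⟨⟨i, j⟩, rfl⟩
    rw [Matrix.stdBasis_eq_single]
    have h1 : Matrix.single i j (1 : K) =
        Matrix.single i (⟨0, hm⟩ : Fin m) (1 : K) * Matrix.single (⟨0, hm⟩ : Fin m) j (1 : K) := by
      simp
    rw [h1, h]
    exact Submodule.sum_mem _ fun l _ => Submodule.smul_mem _ _ (Submodule.subset_span ⟨l, rfl⟩)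
  have h2 := finrank_range_le_card (R := K) W
  rw [Set.finrank, hspan, finrank_top, Module.finrank_matrix] at h2
  simpa [sq] using h2

end Pool.Agent.Y640.Rect
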